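import Pool.Agent.U35.RC.Stm

set_option autoImplicit false

/-!
Project RC, package T: large finite sets for the shift graph exist.
-/

namespace Pool.Agent.U901.RC

open Pool.Agent.U35.RC

/-- `X` is big: every colouring with finitely many colours has a monochromatic shift edge in `X` -/
def Big (X : Set ℕ) : Prop :=
  ∀ (c : ℕ) (f : ℕ → ℕ), (∀ i ∈ X, f i < c) → ∃ i ∈ X, ∃ j ∈ X, Sft i j ∧ f i = f j

theorem big_univ : Big Set.univ := by
  intro c f hf
  let S : ℕ → Finset ℕ := fun b => (Finset.range b).image (fun a => f (Nat.pair a b))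
  have hS : ∀ b, S b ∈ (Finset.range c).powerset := by
    intro b
    rw [Finset.mem_powerset]
    intro x hx
    obtain ⟨a, _, rfl⟩ := Finset.mem_image.mp hx
    exact Finset.mem_range.mpr (hf _ (Set.mem_univ _))
  have key : ∀ b b' : ℕ, b < b' → S b = S b' →
      ∃ i ∈ (Set.univ : Set ℕ), ∃ j ∈ (Set.univ : Set ℕ), Sft i j ∧ f i = f j := by
    intro b b' hbb he
    have h1 : f (Nat.pair b b') ∈ S b' :=
      Finset.mem_image.mpr ⟨b, Finset.mem_range.mpr hbb, rfl⟩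
    rw [← he] at h1
    obtain ⟨a, ha, h2⟩ := Finset.mem_image.mp h1
    exact ⟨Nat.pair a b, Set.mem_univ _, Nat.pair b b', Set.mem_univ _,
      ⟨a, b, b', Finset.mem_range.mp ha, hbb, rfl, rfl⟩, h2⟩
  obtain ⟨b, b', hne, he⟩ := Finite.exists_ne_map_eq_of_infinite
    (fun b : ℕ => (⟨S b, hS b⟩ : {s // s ∈ (Finset.range c).powerset}))
  have he' : S b = S b' := congrArg Subtype.val he
  rcases lt_or_gt_of_ne hne with h | h
  · exact key b b' h he'
  · exact key b' b h he'.symm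

theorem big_split {X : Set ℕ} (hX : Big X) (c : ℕ) (f : ℕ → ℕ) (hf : ∀ i ∈ X, f i < c) :
    ∃ v, Big {i | i ∈ X ∧ f i = v} := by
  by_contra hcon
  push Not at hcon
  have h1 : ∀ v, ∃ (d : ℕ) (g : ℕ → ℕ), (∀ i, i ∈ X ∧ f i = v → g i < d) ∧
      ∀ i, (i ∈ X ∧ f i = v) → ∀ j, (j ∈ X ∧ f j = v) → Sft i j → g i ≠ g j := by
    intro v
    have h2 := hcon v
    unfold Big at h2
    push Not at h2
    obtain ⟨d, g, h3, h4⟩ := h2
    exact ⟨d, g, h3, h4⟩
  choose d g h2 h3 using h1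
  set M := (Finset.range c).sup d with hM
  obtain ⟨i, hi, j, hj, hs, he⟩ := hX ((max c M + 1) ^ 2) (fun i => Nat.pair (f i) (g (f i) i)) (by
    intro i hi
    refine (Nat.pair_lt_max_add_one_sq _ _).trans_le ?_
    have e1 : f i < c := hf i hi
    have e2 : g (f i) i < d (f i) := h2 (f i) i ⟨hi, rfl⟩
    have e3 : d (f i) ≤ M := Finset.le_sup (f := d) (Finset.mem_range.mpr e1)
    have e4 : max (f i) (g (f i) i) ≤ max c M := by omega
    exact Nat.pow_le_pow_left (by omega) 2)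
  simp only [Nat.pair_eq_pair] at he
  obtain ⟨he1, he2⟩ := he
  rw [he1] at he2
  exact h3 (f j) i ⟨hi, he1⟩ j ⟨hj, rfl⟩ hs he2

open Filter in
theorem big_T (β : ℕ → ℕ) : ∀ (k : ℕ) (X : Set ℕ), Big X →
    ∃ C : Finset ℕ, (∀ i ∈ C, i ∈ X) ∧ T β k C := by
  intro k
  induction k with
  | zero =>
    intro X hX
    obtain ⟨i, hi, j, hj, hs, _⟩ := hX 1 (fun _ => 0) (fun _ _ => Nat.one_pos)
    refine ⟨{i, j}, ?_, i, by simp, j, by simp, hs⟩
    intro x hx
    simp only [Finset.mem_insert, Finset.mem_singleton] at hx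
    rcases hx with rfl | rfl
    · exact hi
    · exact hj
  | succ k ih =>
    intro X hX
    by_contra hcon
    push Not at hcon
    obtain ⟨i1, hi1, j1, hj1, hs, _⟩ := hX 1 (fun _ => 0) (fun _ _ => Nat.one_pos)
    classical
    let Y : ℕ → Finset ℕ := fun n => (Finset.range n).filter (fun i => i ∈ X)
    have hY : ∀ n i, i ∈ Y n ↔ i < n ∧ i ∈ X := by
      intro n i
      simp [Y]
    have h1 : ∀ n, ∃ f : ℕ → ℕ, i1 < n → j1 < n → (∀ i ∈ Y n, ∀ j ∈ Y n, f i < β j) ∧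
        ∀ C' ⊆ Y n, T β k C' → ¬ ∀ i ∈ C', ∀ j ∈ C', f i = f j := by
      intro n
      by_cases hn : i1 < n ∧ j1 < n
      · have h2 := hcon (Y n) (fun i hi => ((hY n i).mp hi).2)
        have h3 : ¬ ((∃ i ∈ Y n, ∃ j ∈ Y n, Sft i j) ∧ ∀ f : ℕ → ℕ,
            (∀ i ∈ Y n, ∀ j ∈ Y n, f i < β j) → ∃ C' ⊆ Y n, T β k C' ∧
              ∀ i ∈ C', ∀ j ∈ C', f i = f j) := h2
        have h4 : ¬ ∀ f : ℕ → ℕ,
            (∀ i ∈ Y n, ∀ j ∈ Y n, f i < β j) → ∃ C' ⊆ Y n, T β k C' ∧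
              ∀ i ∈ C', ∀ j ∈ C', f i = f j := fun h5 =>
          h3 ⟨⟨i1, (hY n i1).mpr ⟨hn.1, hi1⟩, j1, (hY n j1).mpr ⟨hn.2, hj1⟩, hs⟩, h5⟩
        rw [not_forall] at h4
        obtain ⟨f, hf⟩ := h4
        rw [Classical.not_imp] at hf
        exact ⟨f, fun _ _ => ⟨hf.1, fun C' hC' hT hh => hf.2 ⟨C', hC', hT, hh⟩⟩⟩
      · exact ⟨fun _ => 0, fun ha hb => absurd ⟨ha, hb⟩ hn⟩
    choose F hF using h1
    have hU : ∀ m : ℕ, ∀ᶠ n in (hyperfilter ℕ : Filter ℕ), m < n := by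
      intro m
      have : ∀ᶠ n in (atTop : Filter ℕ), m < n := eventually_gt_atTop m
      rw [← Nat.cofinite_eq_atTop] at this
      exact this.filter_mono (hyperfilter_le_cofinite)
    have h2 : ∀ i, ∃ v, i ∈ X → (v < β i1 ∧ ∀ᶠ n in (hyperfilter ℕ : Filter ℕ), F n i = v) := by
      intro i
      by_cases hi : i ∈ X
      · by_contra hno
        push Not at hno
        have h3 : ∀ v ∈ Finset.range (β i1), ∀ᶠ n in (hyperfilter ℕ : Filter ℕ), F n i ≠ v := by
          intro v hv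
          exact (hno v).2 (Finset.mem_range.mp hv)
        have h5 := (Filter.eventually_all_finset (Finset.range (β i1))).mpr h3
        obtain ⟨n, hn1, hn2, hn3, hn4⟩ := (h5.and ((hU i).and ((hU i1).and (hU j1)))).exists
        have h6 := (hF n hn3 hn4).1 i ((hY n i).mpr ⟨hn2, hi⟩) i1 ((hY n i1).mpr ⟨hn3, hi1⟩)
        exact hn1 (F n i) (Finset.mem_range.mpr h6) rfl
      · exact ⟨0, fun h => absurd h hi⟩
    choose f hf using h2
    obtain ⟨v, hv⟩ := big_split hX (β i1) f (fun i hi => (hf i hi).1)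
    obtain ⟨C, hC, hT⟩ := ih _ hv
    have h3 : ∀ᶠ n in (hyperfilter ℕ : Filter ℕ), ∀ i ∈ C, F n i = v ∧ i < n := by
      rw [Filter.eventually_all_finset]
      intro i hi
      have h4 := hC i hi
      have h5 := (hf i h4.1).2
      rw [h4.2] at h5
      exact h5.and (hU i)
    obtain ⟨n, hn1, hn2, hn3⟩ := (h3.and ((hU i1).and (hU j1))).exists
    refine (hF n hn2 hn3).2 C (fun i hi => (hY n i).mpr ⟨(hn1 i hi).2, (hC i hi).1⟩) hT ?_
    intro i hi j hj
    rw [(hn1 i hi).1, (hn1 j hj).1]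

theorem t_T : Pool.Agent.U35.RC.S_T := by
  intro β k
  obtain ⟨C, _, hT⟩ := big_T β k Set.univ big_univ
  exact ⟨C, hT⟩

end Pool.Agent.U901.RC
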